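import Pool.Agent.W787.KG.Defs

open MeasureTheory Set Metric Filter Topology Real
open scoped ContDiff

namespace Pool.Agent.W856.KG.Rt

open Pool.Agent.W787.KG

lemma bound1 (h4 : S_WE) {g : ℝ → E → ℝ} {K : ℝ} {p k : ℕ} (hk : k ≤ p) (hK : 0 ≤ K)
    (hg : ∀ t ξ, |g t ξ| ≤ K * Wg p 1 1 ξ) (t : ℝ) (ξ : E) : |g t ξ| ≤ K * Wg k 1 1 ξ :=
  (hg t ξ).trans (mul_le_mul_of_nonneg_left (h4.2.2.2.1 p k ξ hk) hK)

lemma bound2 (h4 : S_WE) {g : ℝ → E → ℝ} {K : ℝ} {p k : ℕ} (hk : k + 1 ≤ p) (hK : 0 ≤ K) (v : E)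
    (hg : ∀ t ξ, |g t ξ| ≤ K * Wg p 1 1 ξ) (t : ℝ) (ξ : E) :
    |inner ℝ ξ v * g t ξ| ≤ (K * ‖v‖) * Wg k 1 1 ξ := by
  rw [abs_mul]
  have h1 : |inner ℝ ξ v| ≤ ‖ξ‖ * ‖v‖ := abs_real_inner_le_norm ξ v
  have h2 := h4.2.2.1 p 1 ξ (by omega)
  rw [pow_one] at h2
  have h3 := h4.2.2.2.1 (p - 1) k ξ (by omega)
  calc |inner ℝ ξ v| * |g t ξ| ≤ (‖ξ‖ * ‖v‖) * (K * Wg p 1 1 ξ) :=
        mul_le_mul h1 (hg t ξ) (abs_nonneg _) (by positivity)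
    _ = (K * ‖v‖) * (‖ξ‖ * Wg p 1 1 ξ) := by ring
    _ ≤ (K * ‖v‖) * Wg k 1 1 ξ :=
        mul_le_mul_of_nonneg_left (h2.trans h3) (by positivity)

theorem rt (h1 : S_C1) (h4 : S_WE) : S_RT := by
  intro a b c K ha hb hc hKa hKb hKc hd
  have hK : 0 ≤ K := by
    have h := (abs_nonneg _).trans (hKa 0 0)
    have h0 := (h4.1 6 1 1 0 one_pos one_pos).1
    by_contra hneg
    push Not at hneg
    have := mul_neg_of_neg_of_pos hneg h0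
    linarith
  have hΩ : IsOpen (Ioi (0 : ℝ) ×ˢ (univ : Set E)) := isOpen_Ioi.prod isOpen_univ
  obtain ⟨A1, A2, A3, A4⟩ := h1 a b K 0 ha hb (bound1 h4 (by norm_num) hK hKa)
    (bound1 h4 (by norm_num) hK hKb) (fun t ξ ht => (hd t ξ ht).1)
  obtain ⟨B1, B2, B3, -⟩ := h1 b c K 0 hb hc (bound1 h4 (by norm_num) hK hKb)
    (bound1 h4 (by norm_num) hK hKc) (fun t ξ ht => (hd t ξ ht).2)
  have C : ∀ v : E, ContDiffOn ℝ 1 (fun z : ℝ × E => ∫ ξ, Real.cos (inner ℝ ξ z.2 + (0 + π / 2)) *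
      (inner ℝ ξ v * a z.1 ξ)) (Ioi (0 : ℝ) ×ˢ univ) := by
    intro v
    have hi : Continuous fun z : ℝ × E => inner ℝ z.2 v := by fun_prop
    exact (h1 (fun t ξ => inner ℝ ξ v * a t ξ) (fun t ξ => inner ℝ ξ v * b t ξ) (K * ‖v‖)
      (0 + π / 2) (hi.mul ha) (hi.mul hb) (bound2 h4 (by norm_num) hK v hKa)
      (bound2 h4 (by norm_num) hK v hKb) (fun t ξ ht => (hd t ξ ht).1.const_mul _)).2.2.1
  have hCT : ∀ (g : ℝ → E → ℝ) (z : ℝ × E), CT (g z.1) z.2 =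
      ∫ ξ, Real.cos (inner ℝ ξ z.2 + 0) * g z.1 ξ := by
    intro g z
    unfold CT
    simp only [add_zero]
  have hfun : (fun z : ℝ × E => CT (a z.1) z.2) =
      fun z : ℝ × E => ∫ ξ, Real.cos (inner ℝ ξ z.2 + 0) * a z.1 ξ := funext fun z => hCT a z
  refine ⟨?_, ?_, ?_⟩
  · rw [hfun]; exact A1
  · rw [hfun]
    have h2 : (2 : WithTop ℕ∞) = 1 + 1 := by norm_num
    rw [h2, contDiffOn_succ_iff_fderiv_of_isOpen hΩ]
    refine ⟨A3.differentiableOn (by norm_num), by simp, ?_⟩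
    rw [contDiffOn_clm_apply]
    rintro ⟨τ, v⟩
    have h3 : ContDiffOn ℝ 1 (fun z : ℝ × E => τ * (∫ ξ, Real.cos (inner ℝ ξ z.2 + 0) * b z.1 ξ)
        + ∫ ξ, Real.cos (inner ℝ ξ z.2 + (0 + π / 2)) * (inner ℝ ξ v * a z.1 ξ))
        (Ioi (0 : ℝ) ×ˢ univ) := (contDiffOn_const.mul B3).add (C v)
    refine h3.congr ?_
    rintro ⟨t, x⟩ ⟨ht, -⟩
    obtain ⟨D, hD, hDv⟩ := A4 t x ht
    rw [hD.fderiv]
    exact hDv τ v
  · intro t x ht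
    obtain ⟨D, hD, hDv⟩ := A4 t x ht
    have h3 : HasDerivAt (fun s : ℝ => (s, x)) ((1 : ℝ), (0 : E)) t :=
      (hasDerivAt_id t).prodMk (hasDerivAt_const t x)
    have h5 := hD.comp_hasDerivAt t h3
    rw [hDv] at h5
    have h6 : (fun s => CT (a s) x) =
        (fun z : ℝ × E => ∫ ξ, Real.cos (inner ℝ ξ z.2 + 0) * a z.1 ξ) ∘ fun s : ℝ => (s, x) :=
      funext fun s => hCT a (s, x)
    rw [h6, h5.deriv, hCT b (t, x)]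
    simp

end Pool.Agent.W856.KG.Rt
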